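import Pool.Agent.Q221.Forest.Main

/-!
# The atomicity problem for ordered forests under the consecutive order is decidable

The definitions are in `Pool.Agent.Q221.Forest.Main`: `OrdForest` (graphs without cycles on
`{0, …, n - 1}`, `n ≥ 1`), `OrdForest.Le` (the consecutive order), `Av B`, `DownClosed`, `Atomic` (not
the union of two proper downward closed subsets), `Codes` and `coded` (finite sets of forests as
inputs of algorithms: lists of pairs (length, list of the edges)).

Method. Let `c + 1 ≥ 2` be at least the length of all members of `B`; call an edge long if its ends
have a distance of at least `c + 1`. Adding or removing a long edge does not change the windows of
length `c + 1`, so only acyclicity has to be watched. Let `Av(B)` be infinite and atomic.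

* If every `T ∈ Av(B)` occurs twice, without overlap, in a member of `Av(B)`, then for any two members
  `W`, `W'` of length `c` there is a member in which `W` occurs to the left of `W'`, where all the
  vertices of `W` are connected by paths to the left, and those of `W'` by paths to the right (with
  long edges from far vertices every window can be made connected). This finite condition is
  conversely sufficient for atomicity, since parts of a forest can be replaced by parts with the
  same border window whose connectivity on the border is smaller.
* Otherwise some member `W` occurs at most once in every member. Then a member which contains `W` is
  determined by its length and the position of `W`; hence there are no long edges at all, and all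
  members of a large length `N` are connected; members of `Av(B)` can be glued along windows of
  length `N`, and `Av(B)` is the set of the factors of one sequence whose windows have at most one
  continuation away from `W`. This also has a finite certificate.

So atomicity has finite certificates. Non-atomicity has finite certificates too: two members
without joint extension; if two members have a joint extension, then they have one of bounded
length (pigeonhole principle for the windows of length `c` together with the connectivity to the
left).
-/

set_option autoImplicit false

namespace Pool.Agent.Results.MP_ab000d_co.AtomicityDecidable

open Pool.Agent.Q221.Forest

/-- **The atomicity problem for ordered forests under the consecutive order is decidable.**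

First part: there is an algorithm which decides, for every list `L` of pairs (length, list of the
edges), whether `Av(B)` is atomic, where `B = coded L` is the set of the ordered forests which are
represented in the list. Second and third part: every pair represents at most one ordered forest,
and every finite set of ordered forests is represented by a list. Fourth part: for downward closed
sets atomicity is the joint embedding property. -/
theorem result :
    (ComputablePred fun L : List (ℕ × List (ℕ × ℕ)) => Atomic (Av (coded L))) ∧
    (∀ (a : ℕ × List (ℕ × ℕ)) (F H : OrdForest), Codes a F → Codes a H → F = H) ∧
    (∀ B : Set OrdForest, B.Finite → ∃ L, coded L = B) ∧
    (∀ Y : Set OrdForest, DownClosed Y →
      (Atomic Y ↔ ∀ x ∈ Y, ∀ y ∈ Y, ∃ z ∈ Y, OrdForest.Le x z ∧ OrdForest.Le y z)) :=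
  ⟨atomic_computable, fun _ _ _ => codes_unique, fun _ => exists_coded, fun _ => atomic_iff⟩

end Pool.Agent.Results.MP_ab000d_co.AtomicityDecidable
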